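import Pool.Agent.TH696.FA.Final

set_option autoImplicit false

/-!
# MP_1e1427_nt: all small prime factors of `2^(x+y) + 2^(z+w) + 1` can be avoided

For odd `n` the quadruples `(x, y, z, w)` of natural numbers with `n = x² + y² + z² + w²` are
considered.

* Part 1. For all large odd `n` and all moduli `K ≤ n ^ δ` there are at least `n ^ (1 - ε)`
  quadruples for which `2^(x+y) + 2^(z+w) + 1` is coprime to `2 (2^K - 1)`, that is, not divisible
  by `2` and by no prime `q` for which the order of `2` modulo `q` divides `K`.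
* Part 2. Every odd `n` has at least `c n ^ (1 - ε)` quadruples for which all prime factors of
  `2^(x+y) + 2^(z+w) + 1` are larger than `c log n`.

The proof. Let `K = 2^v L` with `L` odd. If `K` divides `x + y` and `2^v` divides `z + w - 1` then
`2^(x+y) + 2^(z+w) + 1` is `2 (1 + 2^(z+w-1))` modulo a prime factor `q` of `2^K - 1`, and the `L`-th
power of `2^(z+w-1)` is `1`, so that `q` does not divide the sum. These congruences are solvable
for every odd `n` modulo every prime power. It is shown that every admissible residue class modulo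
every `D ≤ n ^ δ` divisible by `4` contains at least `n ^ (1 - ε)` representations of `n` as a sum
of four squares of natural numbers: the circle method of the starting development (Kloosterman
sums) compares two classes, and it is extended from squarefree odd moduli to all moduli divisible
by `4`; the signs are dealt with by rational rotations of the two coordinate planes by the
multiples `0, ±θ, ±2θ` of an angle `θ` between `67.5` and `90` degrees, which are the identity
modulo `D` and have denominators that are polynomial in `D`.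
-/

namespace Pool.Agent.Results.MP_1e1427_nt.AllPrimesToLog

theorem result (ε : ℝ) (hε : 0 < ε) :
    (∃ δ : ℝ, 0 < δ ∧ ∃ n₀ : ℕ, ∀ n K : ℕ, n₀ ≤ n → Odd n → 0 < K → (K : ℝ) ≤ (n : ℝ) ^ δ →
      ∃ S : Finset (ℕ × ℕ × ℕ × ℕ), (n : ℝ) ^ (1 - ε) ≤ (S.card : ℝ) ∧
        ∀ x y z w : ℕ, (x, y, z, w) ∈ S → n = x ^ 2 + y ^ 2 + z ^ 2 + w ^ 2 ∧
          Nat.Coprime (2 ^ (x + y) + 2 ^ (z + w) + 1) (2 * (2 ^ K - 1))) ∧
    (∃ c : ℝ, 0 < c ∧ ∀ n : ℕ, Odd n →
      ∃ S : Finset (ℕ × ℕ × ℕ × ℕ), c * (n : ℝ) ^ (1 - ε) ≤ (S.card : ℝ) ∧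
        ∀ x y z w : ℕ, (x, y, z, w) ∈ S → n = x ^ 2 + y ^ 2 + z ^ 2 + w ^ 2 ∧
          ∀ q : ℕ, q.Prime → q ∣ 2 ^ (x + y) + 2 ^ (z + w) + 1 → c * Real.log n < q) :=
  ⟨Pool.Agent.TH696.FA.main_count ε hε, Pool.Agent.TH696.FA.main_log ε hε⟩

end Pool.Agent.Results.MP_1e1427_nt.AllPrimesToLog
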